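import Mathlib

/-!
# MP_c1e3ac_co, Q1: a reduced factorization need not realize the depth

In the affine group of type `A₂` the element `w = s₀ s₁ s₂ s₀ s₁ s₂ s₀` has length `7` and a unique
reduced word, so all its reduced factorizations into reflections consist of seven simple reflections,
while `w = (s₀ s₁ s₀) (s₂) (s₀ s₂ s₁ s₂ s₀)` shows that the depth of `w` is at most `2 + 1 + 3 = 6`.
-/

set_option autoImplicit false

namespace Pool.Agent.Results.MP_c1e3ac_co.AffineA2

open CoxeterSystem

section defs

variable {B W : Type*} {M : CoxeterMatrix B} [Group W] (cs : CoxeterSystem M W)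

/-- `L` is a factorization of `w` into reflections of the Coxeter system `cs`. -/
def IsFactorization (w : W) (L : List W) : Prop :=
  (∀ t ∈ L, cs.IsReflection t) ∧ L.prod = w

/-- The sum of `(1 + ℓ(t)) / 2` over the entries `t` of the list `L`. (Reflections have odd length.) -/
noncomputable def cost (L : List W) : ℕ := (L.map fun t => (1 + cs.length t) / 2).sum

/-- The depth of `w`: the least cost of a factorization of `w` into reflections. -/
noncomputable def depth (w : W) : ℕ := sInf {d | ∃ L, IsFactorization cs w L ∧ cost cs L = d}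

/-- `L` realizes the depth of `w`. -/
def RealizesDepth (w : W) (L : List W) : Prop := cost cs L = depth cs w

/-- The factorization `L` of `w` is reduced: `ℓ(w)` is the sum of the lengths of the factors. -/
def IsReducedFactorization (w : W) (L : List W) : Prop :=
  cs.length w = (L.map cs.length).sum

end defs

/-- The Coxeter matrix of type affine `A₂`: all off-diagonal entries are `3`. -/
def affineA2 : CoxeterMatrix (Fin 3) where
  M := fun i j => if i = j then 1 else 3
  isSymm := by
    ext i j
    change (if j = i then 1 else 3) = (if i = j then 1 else 3)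
    simp only [eq_comm]
  diagonal := by intro i; simp
  off_diagonal := by intro i j h; simp [h]

abbrev cs : CoxeterSystem affineA2 affineA2.Group := affineA2.toCoxeterSystem

/-- the word `0 1 2 0 1 2 0` -/
abbrev w7 : List (Fin 3) := [0, 1, 2, 0, 1, 2, 0]

/-! ### An action giving lower bounds of lengths -/

def f0 (x : ℤ × ℤ × ℤ) : ℤ × ℤ × ℤ := (x.2.2 - 3, x.2.1, x.1 + 3)
def f1 (x : ℤ × ℤ × ℤ) : ℤ × ℤ × ℤ := (x.2.1, x.1, x.2.2)
def f2 (x : ℤ × ℤ × ℤ) : ℤ × ℤ × ℤ := (x.1, x.2.2, x.2.1)

def fi (i : Fin 3) : ℤ × ℤ × ℤ → ℤ × ℤ × ℤ :=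
  match i with
  | 0 => f0
  | 1 => f1
  | 2 => f2

lemma fi_invol (i : Fin 3) (x : ℤ × ℤ × ℤ) : fi i (fi i x) = x := by
  obtain ⟨a, b, c⟩ := x
  fin_cases i <;> simp [fi, f0, f1, f2]

def pf (i : Fin 3) : Equiv.Perm (ℤ × ℤ × ℤ) where
  toFun := fi i
  invFun := fi i
  left_inv := fi_invol i
  right_inv := fi_invol i

lemma liftable : affineA2.IsLiftable pf := by
  intro i j
  ext ⟨a, b, c⟩ <;> fin_cases i <;> fin_cases j <;>
    simp [affineA2, pf, fi, f0, f1, f2, pow_succ]

/-- the action of the group on integer triples -/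
noncomputable def act : affineA2.Group →* Equiv.Perm (ℤ × ℤ × ℤ) := cs.lift ⟨pf, liftable⟩

/-- the action of a word on the base point -/
def ev : List (Fin 3) → ℤ × ℤ × ℤ
  | [] => (1, 2, 3)
  | i :: ω => fi i (ev ω)

lemma act_wordProd (ω : List (Fin 3)) : act (cs.wordProd ω) (1, 2, 3) = ev ω := by
  induction ω with
  | nil => simp [ev]
  | cons i ω ih =>
    rw [cs.wordProd_cons, map_mul, Equiv.Perm.mul_apply, ih]
    have : act (cs.simple i) = pf i := cs.lift_apply_simple liftable i
    rw [this]
    rfl

/-- the number of inversions of a window -/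
def inv (x : ℤ × ℤ × ℤ) : ℕ :=
  ((x.2.1 - x.1) / 3).natAbs + ((x.2.2 - x.2.1) / 3).natAbs + ((x.2.2 - x.1) / 3).natAbs

def Good (x : ℤ × ℤ × ℤ) : Prop :=
  (x.2.1 - x.1) % 3 ≠ 0 ∧ (x.2.2 - x.2.1) % 3 ≠ 0 ∧ (x.2.2 - x.1) % 3 ≠ 0

lemma good_fi (i : Fin 3) (x : ℤ × ℤ × ℤ) (h : Good x) : Good (fi i x) ∧ inv (fi i x) ≤ inv x + 1 := by
  obtain ⟨a, b, c⟩ := x
  obtain ⟨h1, h2, h3⟩ := h
  simp only at h1 h2 h3
  fin_cases i <;> simp only [fi, f0, f1, f2, Good, inv] <;> refine ⟨⟨?_, ?_, ?_⟩, ?_⟩ <;> omega

lemma ev_good (ω : List (Fin 3)) : Good (ev ω) ∧ inv (ev ω) ≤ ω.length := by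
  induction ω with
  | nil => refine ⟨⟨?_, ?_, ?_⟩, ?_⟩ <;> decide
  | cons i ω ih =>
    obtain ⟨h1, h2⟩ := good_fi i (ev ω) ih.1
    refine ⟨h1, ?_⟩
    simp only [ev, List.length_cons]
    omega

lemma inv_le_length (ω : List (Fin 3)) : inv (ev ω) ≤ cs.length (cs.wordProd ω) := by
  obtain ⟨ω', h1, h2⟩ := cs.exists_isReduced (cs.wordProd ω)
  have h3 := (ev_good ω').2
  rw [← act_wordProd ω', ← h2, act_wordProd] at h3
  rw [h2, h1.eq]
  exact h3

/-! ### Uniqueness of the reduced word -/

/-- `ω` and all its tails satisfy: putting a letter different from the first one in front gives too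
many inversions. -/
def Chk : List (Fin 3) → Prop
  | [] => True
  | i :: ω => (∀ j, j ≠ i → ω.length + 1 < inv (fi j (ev (i :: ω)))) ∧ Chk ω

instance decChk : ∀ ω, Decidable (Chk ω)
  | [] => inferInstanceAs (Decidable True)
  | _ :: ω =>
    have := decChk ω
    inferInstanceAs (Decidable (_ ∧ _))

lemma unique_of_chk : ∀ ω₀ : List (Fin 3), Chk ω₀ → ∀ ω : List (Fin 3),
    ω.length = ω₀.length → cs.wordProd ω = cs.wordProd ω₀ → ω = ω₀
  | [], _, ω, h, _ => by simpa using h
  | i :: ω₀, hc, ω, h, he => by
    cases ω with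
    | nil => simp at h
    | cons j ω =>
      have hj : j = i := by
        by_contra hne
        have h1 := hc.1 j hne
        have h2 : cs.wordProd ω = cs.wordProd (j :: i :: ω₀) := by
          rw [cs.wordProd_cons j, ← he, cs.wordProd_cons, ← mul_assoc, cs.simple_mul_simple_self,
            one_mul]
        have h3 := inv_le_length (j :: i :: ω₀)
        rw [← h2] at h3
        have h4 := cs.length_wordProd_le ω
        simp only [List.length_cons] at h
        have h5 : ev (j :: i :: ω₀) = fi j (ev (i :: ω₀)) := rfl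
        rw [h5] at h3
        omega
      subst hj
      have h2 : cs.wordProd ω = cs.wordProd ω₀ := by
        rw [cs.wordProd_cons, cs.wordProd_cons] at he
        exact mul_left_cancel he
      rw [unique_of_chk ω₀ hc.2 ω (by simpa using h) h2]

lemma chk_w7 : Chk w7 := by decide

lemma length_w7 : cs.length (cs.wordProd w7) = 7 := by
  apply le_antisymm
  · exact cs.length_wordProd_le w7
  · refine le_trans ?_ (inv_le_length w7)
    decide

/-! ### The relation giving a factorization of cost six -/

lemma braid (i j : Fin 3) (h : i ≠ j) :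
    cs.simple i * cs.simple j * cs.simple i = cs.simple j * cs.simple i * cs.simple j := by
  have h1 := cs.simple_mul_simple_pow i j
  have h2 : affineA2 i j = 3 := by simp [affineA2, h]
  rw [h2] at h1
  have hi := cs.simple_mul_simple_self i
  have hj := cs.simple_mul_simple_self j
  have h3 : (cs.simple i * cs.simple j * cs.simple i) * (cs.simple j * cs.simple i * cs.simple j) = 1 := by
    rw [← h1]
    simp only [pow_succ, pow_zero, one_mul, mul_assoc]
  have h4 : (cs.simple j * cs.simple i * cs.simple j) * (cs.simple j * cs.simple i * cs.simple j) = 1 := by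
    calc (cs.simple j * cs.simple i * cs.simple j) * (cs.simple j * cs.simple i * cs.simple j)
        = cs.simple j * (cs.simple i * ((cs.simple j * cs.simple j) * (cs.simple i * cs.simple j))) := by
          simp only [mul_assoc]
      _ = 1 := by rw [hj, one_mul, ← mul_assoc (cs.simple i), hi, one_mul, hj]
  exact mul_right_cancel (h3.trans h4.symm)

lemma factor : cs.wordProd [0, 1, 0] * cs.wordProd [2] * cs.wordProd [0, 2, 1, 2, 0] =
    cs.wordProd w7 := by
  have h := braid 0 2 (by decide)
  have h2 := cs.simple_mul_simple_self 2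
  simp only [cs.wordProd_cons, cs.wordProd_nil, mul_one]
  have e1 : cs.simple 0 * (cs.simple 1 * cs.simple 0) * cs.simple 2 *
      (cs.simple 0 * (cs.simple 2 * (cs.simple 1 * (cs.simple 2 * cs.simple 0)))) =
      cs.simple 0 * cs.simple 1 * (cs.simple 0 * cs.simple 2 * cs.simple 0) *
        (cs.simple 2 * (cs.simple 1 * (cs.simple 2 * cs.simple 0))) := by
    simp only [mul_assoc]
  rw [e1, h]
  have e2 : cs.simple 0 * cs.simple 1 * (cs.simple 2 * cs.simple 0 * cs.simple 2) *
        (cs.simple 2 * (cs.simple 1 * (cs.simple 2 * cs.simple 0))) =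
      cs.simple 0 * cs.simple 1 * cs.simple 2 * cs.simple 0 * ((cs.simple 2 * cs.simple 2) *
        (cs.simple 1 * (cs.simple 2 * cs.simple 0))) := by
    simp only [mul_assoc]
  rw [e2, h2, one_mul]
  simp only [mul_assoc]

lemma depth_le : depth cs (cs.wordProd w7) ≤ 6 := by
  have r1 : cs.IsReflection (cs.wordProd [0, 1, 0]) := by
    refine ⟨cs.simple 0, 1, ?_⟩
    rw [cs.inv_simple]
    simp only [cs.wordProd_cons, cs.wordProd_nil, mul_one, mul_assoc]
  have r2 : cs.IsReflection (cs.wordProd [2]) := by
    simpa using cs.isReflection_simple 2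
  have r3 : cs.IsReflection (cs.wordProd [0, 2, 1, 2, 0]) := by
    refine ⟨cs.simple 0 * cs.simple 2, 1, ?_⟩
    rw [mul_inv_rev, cs.inv_simple, cs.inv_simple]
    simp only [cs.wordProd_cons, cs.wordProd_nil, mul_one, mul_assoc]
  have hL : IsFactorization cs (cs.wordProd w7)
      [cs.wordProd [0, 1, 0], cs.wordProd [2], cs.wordProd [0, 2, 1, 2, 0]] := by
    refine ⟨?_, ?_⟩
    · intro t ht
      simp only [List.mem_cons, List.not_mem_nil, or_false] at ht
      rcases ht with rfl | rfl | rfl
      · exact r1
      · exact r2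
      · exact r3
    · rw [← factor]; simp only [List.prod_cons, List.prod_nil, mul_one, mul_assoc]
  have hd : depth cs (cs.wordProd w7) ≤
      cost cs [cs.wordProd [0, 1, 0], cs.wordProd [2], cs.wordProd [0, 2, 1, 2, 0]] :=
    Nat.sInf_le ⟨_, hL, rfl⟩
  refine hd.trans ?_
  have l1 := cs.length_wordProd_le [0, 1, 0]
  have l2 := cs.length_wordProd_le [2]
  have l3 := cs.length_wordProd_le [0, 2, 1, 2, 0]
  simp only [List.length_cons, List.length_nil] at l1 l2 l3
  simp only [cost, List.map_cons, List.map_nil, List.sum_cons, List.sum_nil]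
  omega

/-! ### Reduced factorizations -/

lemma pal_chk : ∀ k < 8, ∀ l < 8,
    ((w7.drop k).take l).reverse = (w7.drop k).take l → ((w7.drop k).take l).length ≤ 1 := by
  decide

lemma infix_pal (a b c : List (Fin 3)) (h : a ++ b ++ c = w7) (hb : b.reverse = b) : b.length ≤ 1 := by
  have hlen : a.length + b.length + c.length = 7 := by
    have := congrArg List.length h
    simp only [List.length_append, w7, List.length_cons, List.length_nil] at this
    omega
  have h1 : (w7.drop a.length).take b.length = b := by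
    rw [← h]
    simp
  have h2 := pal_chk a.length (by omega) b.length (by omega)
  rw [h1] at h2
  exact h2 hb

/-- choose reduced words of the entries -/
lemma words (L : List affineA2.Group) : ∃ Ω : List (List (Fin 3)), Ω.map cs.wordProd = L ∧
    Ω.map List.length = L.map cs.length := by
  induction L with
  | nil => exact ⟨[], rfl, rfl⟩
  | cons t L ih =>
    obtain ⟨Ω, h1, h2⟩ := ih
    obtain ⟨ω, h3, h4⟩ := cs.exists_isReduced t
    refine ⟨ω :: Ω, ?_, ?_⟩
    · rw [List.map_cons, ← h4, h1]
    · rw [List.map_cons, List.map_cons, h2, ← h3.eq, ← h4]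

lemma wordProd_flatten (Ω : List (List (Fin 3))) :
    cs.wordProd Ω.flatten = (Ω.map cs.wordProd).prod := by
  induction Ω with
  | nil => simp
  | cons ω Ω ih => rw [List.flatten_cons, cs.wordProd_append, ih, List.map_cons, List.prod_cons]

lemma reduced_simple (L : List affineA2.Group) (hL : IsFactorization cs (cs.wordProd w7) L)
    (hr : IsReducedFactorization cs (cs.wordProd w7) L) : ∀ t ∈ L, cs.length t = 1 := by
  intro t ht
  obtain ⟨L₁, L₂, rfl⟩ := List.append_of_mem ht
  obtain ⟨Ω₁, a1, a2⟩ := words L₁
  obtain ⟨Ω₂, b1, b2⟩ := words L₂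
  obtain ⟨ω, c1, c2⟩ := cs.exists_isReduced t
  have hrefl : cs.IsReflection t := hL.1 t ht
  have hlen : (Ω₁.flatten ++ ω ++ Ω₂.flatten).length = w7.length := by
    unfold IsReducedFactorization at hr
    rw [length_w7] at hr
    simp only [List.map_append, List.map_cons, List.sum_append, List.sum_cons] at hr
    rw [← a2, ← b2, c2, c1.eq] at hr
    simp only [List.length_append, List.length_flatten]
    simp only [w7, List.length_cons, List.length_nil]
    omega
  have hprod : cs.wordProd (Ω₁.flatten ++ ω ++ Ω₂.flatten) = cs.wordProd w7 := by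
    rw [cs.wordProd_append, cs.wordProd_append, wordProd_flatten, wordProd_flatten, a1, b1, ← c2,
      ← hL.2]
    simp [mul_assoc]
  have hprod' : cs.wordProd (Ω₁.flatten ++ ω.reverse ++ Ω₂.flatten) = cs.wordProd w7 := by
    rw [← hprod]
    simp only [cs.wordProd_append, cs.wordProd_reverse]
    rw [← c2, hrefl.inv]
  have e1 := unique_of_chk w7 chk_w7 _ hlen hprod
  have e2 := unique_of_chk w7 chk_w7 (Ω₁.flatten ++ ω.reverse ++ Ω₂.flatten)
    (by simpa using hlen) hprod'
  have e3 : ω.reverse = ω := by
    have := e2.trans e1.symm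
    simpa using this
  have e4 := infix_pal _ _ _ e1 e3
  have e5 := hrefl.odd_length
  rw [c2, c1.eq] at e5 ⊢
  obtain ⟨k, hk⟩ := e5
  omega

lemma cost_of_simple (L : List affineA2.Group) (h : ∀ t ∈ L, cs.length t = 1) :
    cost cs L = L.length ∧ (L.map cs.length).sum = L.length := by
  induction L with
  | nil => simp [cost]
  | cons t L ih =>
    obtain ⟨h1, h2⟩ := ih (fun t ht => h t (List.mem_cons_of_mem _ ht))
    have h3 := h t List.mem_cons_self
    unfold cost at h1 ⊢
    simp only [List.map_cons, List.sum_cons, List.length_cons, h3, h1, h2]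
    omega

/-- **No reduced factorization into reflections realizes the depth** of the element
`s₀ s₁ s₂ s₀ s₁ s₂ s₀` of the affine Coxeter group of type `A₂`. -/
theorem result : ∃ w : affineA2.Group, w = affineA2.toCoxeterSystem.wordProd [0, 1, 2, 0, 1, 2, 0] ∧
    ∀ L : List affineA2.Group, IsFactorization affineA2.toCoxeterSystem w L →
      RealizesDepth affineA2.toCoxeterSystem w L →
      affineA2.toCoxeterSystem.length w < (L.map affineA2.toCoxeterSystem.length).sum := by
  refine ⟨_, rfl, ?_⟩
  intro L hL hd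
  have hge : cs.length (cs.wordProd w7) ≤ (L.map cs.length).sum := by
    rw [← hL.2]
    clear hL hd
    induction L with
    | nil => simp
    | cons t L ih =>
      rw [List.prod_cons, List.map_cons, List.sum_cons]
      exact (cs.length_mul_le _ _).trans (Nat.add_le_add_left ih _)
  rcases hge.lt_or_eq with h | h
  · exact h
  · exfalso
    obtain ⟨h1, h2⟩ := cost_of_simple L (reduced_simple L hL h)
    have h3 := depth_le
    unfold RealizesDepth at hd
    rw [length_w7, h2] at h
    change cost cs L = depth cs (cs.wordProd w7) at hd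
    omega

end Pool.Agent.Results.MP_c1e3ac_co.AffineA2
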